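import Pool.Agent.TH375.KL.Core

/-!
# The horizontal Sato-Tate law of Kloosterman angles for almost all integers

`S(a, 1; p) = 2 √p cos θ_p(a)`.  Katz's conjecture says that for every integer `a ≠ 0` the angles `θ_p(a)`,
`p ≤ x`, are equidistributed for the Sato-Tate measure as `x → ∞`.  Here the law is proved for almost all
integers `a` of an arbitrary interval of length `N`, uniformly for all `x` between `y` and `z`, with at most
`C (N / π(y) + z (log z)²)` exceptions; so `x` may be as large as `N^(1-δ)`, and the number of exceptions is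
`O(N^(1-δ))` if `y = N^(2δ)`, `z = N^(1-2δ)`.
-/

set_option autoImplicit false

namespace Pool.Agent.Results.MP_6ea630_nt.AlmostAllIntegers

open Filter Topology

/-- The Kloosterman sum `S(a, 1; p)`. -/
noncomputable def kloosterman (a : ℤ) (p : ℕ) : ℝ :=
  ∑ x ∈ Finset.Ico 1 p, Real.cos (2 * Real.pi *
    ((((a : ZMod p) * (x : ZMod p) + (x : ZMod p)⁻¹).val : ℕ) : ℝ) / (p : ℝ))

/-- The angle `θ_p(a)`. -/
noncomputable def angle (a : ℤ) (p : ℕ) : ℝ :=
  Real.arccos (kloosterman a p / (2 * Real.sqrt (p : ℝ)))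

/-- The primes up to `x`. -/
def primes (x : ℕ) : Finset ℕ := (Finset.range (x + 1)).filter Nat.Prime

/-- The Sato-Tate measure of `[α, β]`. -/
noncomputable def satoTate (α β : ℝ) : ℝ := (2 / Real.pi) * ∫ u in α..β, Real.sin u ^ 2

open scoped Classical in
/-- The number of primes `p ≤ x`, not dividing `a`, with `α ≤ θ_p(a) ≤ β`. -/
noncomputable def count (α β : ℝ) (a : ℤ) (x : ℕ) : ℕ :=
  ((primes x).filter fun p : ℕ => ¬ (p : ℤ) ∣ a ∧ α ≤ angle a p ∧ angle a p ≤ β).card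

/-- The number of integers `a` with `M < a ≤ M + N` such that `bad a x` for some `x` in `[y, z]`. -/
noncomputable def exceptions (bad : ℤ → ℕ → Prop) (M : ℤ) (N y z : ℕ) : ℕ :=
  {a : ℤ | M < a ∧ a ≤ M + N ∧ ∃ x, y ≤ x ∧ x ≤ z ∧ bad a x}.ncard

/-- For some `C`, all intervals `(M, M + N]` and all `2 ≤ y ≤ z`, at most `C (N / π(y) + z (log z)²)` of the
integers `a` of the interval are bad for some `x` in `[y, z]`. -/
def Few (bad : ℤ → ℕ → Prop) : Prop :=
  ∃ C : ℝ, ∀ (M : ℤ) (N y z : ℕ), 2 ≤ y → y ≤ z →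
    (exceptions bad M N y z : ℝ) ≤ C * (N / Nat.primeCounting y + z * Real.log z ^ 2)

/-- Katz's theorem (1988): for `p → ∞` the angles `θ_p(b)`, `1 ≤ b < p`, are equidistributed for the
Sato-Tate measure. -/
def VerticalSatoTate : Prop :=
  ∀ α β : ℝ, 0 ≤ α → α ≤ β → β ≤ Real.pi →
    Tendsto (fun p : ℕ => ({b : ℕ | 1 ≤ b ∧ b < p ∧ α ≤ angle b p ∧ angle b p ≤ β}.ncard : ℝ) / p)
      (atTop ⊓ 𝓟 {p : ℕ | p.Prime}) (𝓝 (satoTate α β))

/-- The mean value modulo `p` of a function of the angle. -/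
noncomputable def verticalMean (f : ℕ → ℝ → ℝ) (p : ℕ) : ℝ :=
  (∑ b ∈ Finset.Ico 1 p, f p (angle b p)) / p

open scoped Classical in
/-- The sum over the primes `p ≤ x` of `f_p(θ_p(a))` (of `0` if `p` divides `a`) minus the mean value. -/
noncomputable def deviation (f : ℕ → ℝ → ℝ) (a : ℤ) (x : ℕ) : ℝ :=
  ∑ p ∈ primes x, ((if (p : ℤ) ∣ a then 0 else f p (angle a p)) - verticalMean f p)

section
open Pool.Agent.TH375.KL

/-- the Kloosterman sum as a function on residue classes -/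
noncomputable def klz (p : ℕ) (a : ZMod p) : ℝ :=
  ∑ x ∈ Finset.Ico 1 p, Real.cos (2 * Real.pi *
    (((a * (x : ZMod p) + (x : ZMod p)⁻¹).val : ℕ) : ℝ) / (p : ℝ))

theorem klz_eq {p : ℕ} [hp : Fact p.Prime] (a : ZMod p) : klz p a = rk p a 1 := by
  unfold klz rk KK Pool.Agent.Helper916.Kl
  rw [Complex.re_sum]
  have h1 : ∀ z : ZMod p, (ZMod.stdAddChar (a * z + 1 * z⁻¹) : ℂ).re =
      Real.cos (2 * Real.pi * (((a * z + z⁻¹).val : ℕ) : ℝ) / (p : ℝ)) := by
    intro z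
    rw [one_mul, ZMod.stdAddChar_apply, ZMod.toCircle_apply]
    have h2 : (2 * (Real.pi : ℂ) * Complex.I * ((a * z + z⁻¹).val : ℂ) / (p : ℂ)) =
        ((2 * Real.pi * (((a * z + z⁻¹).val : ℕ) : ℝ) / (p : ℝ) : ℝ) : ℂ) * Complex.I := by
      push_cast
      ring
    rw [h2, Complex.exp_ofReal_mul_I_re]
  rw [Finset.sum_congr rfl fun z _ => h1 z]
  refine Finset.sum_nbij' (fun x => (x : ZMod p)) ZMod.val ?_ ?_ ?_ ?_ ?_
  · intro x hx
    rw [Finset.mem_Ico] at hx
    rw [Finset.mem_erase]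
    refine ⟨?_, Finset.mem_univ _⟩
    intro h0
    rw [ZMod.natCast_eq_zero_iff] at h0
    exact absurd (Nat.le_of_dvd hx.1 h0) (not_le.2 hx.2)
  · intro z hz
    rw [Finset.mem_erase] at hz
    rw [Finset.mem_Ico]
    exact ⟨Nat.pos_of_ne_zero fun h0 => hz.1 ((ZMod.val_eq_zero z).1 h0), ZMod.val_lt z⟩
  · intro x hx
    rw [Finset.mem_Ico] at hx
    exact ZMod.val_cast_of_lt hx.2
  · intro z _
    exact ZMod.natCast_zmod_val z
  · intro x _
    rfl

theorem cast_eq_zero {a : ℤ} {p : ℕ} : ((a : ZMod p) = 0) ↔ (p : ℤ) ∣ a :=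
  ZMod.intCast_zmod_eq_zero_iff_dvd a p

theorem exceptions_le (bad : ℤ → ℕ → Prop) (M : ℤ) (N y z : ℕ) :
    open scoped Classical in
    exceptions bad M N y z ≤ ((Finset.Icc 1 N).filter fun n : ℕ =>
      ∃ x, y ≤ x ∧ x ≤ z ∧ bad (M + (n : ℤ)) x).card := by
  classical
  unfold exceptions
  have h1 : {a : ℤ | M < a ∧ a ≤ M + N ∧ ∃ x, y ≤ x ∧ x ≤ z ∧ bad a x} ⊆
      ((((Finset.Icc 1 N).filter fun n : ℕ =>
        ∃ x, y ≤ x ∧ x ≤ z ∧ bad (M + (n : ℤ)) x).image fun n : ℕ => M + (n : ℤ) : Finset ℤ) :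
        Set ℤ) := by
    rintro a ⟨h2, h3, h4⟩
    rw [Finset.mem_coe, Finset.mem_image]
    have e : M + ((a - M).toNat : ℤ) = a := by omega
    refine ⟨(a - M).toNat, ?_, e⟩
    rw [Finset.mem_filter, Finset.mem_Icc, e]
    exact ⟨⟨by omega, by omega⟩, h4⟩
  refine (Set.ncard_le_ncard h1 (Finset.finite_toSet _)).trans ?_
  rw [Set.ncard_coe_finset]
  exact Finset.card_image_le

theorem exceptions_finite (bad : ℤ → ℕ → Prop) (M : ℤ) (N y z : ℕ) :
    {a : ℤ | M < a ∧ a ≤ M + N ∧ ∃ x, y ≤ x ∧ x ≤ z ∧ bad a x}.Finite :=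
  (Set.finite_Ioc M (M + N)).subset fun _ h => ⟨h.1, h.2.1⟩

theorem few_or {b₁ b₂ bad : ℤ → ℕ → Prop} (h₁ : Few b₁) (h₂ : Few b₂)
    (h : ∀ a x, 2 ≤ x → bad a x → b₁ a x ∨ b₂ a x) : Few bad := by
  obtain ⟨C₁, hC₁⟩ := h₁
  obtain ⟨C₂, hC₂⟩ := h₂
  refine ⟨C₁ + C₂, fun M N y z hy hyz => ?_⟩
  have h1 : exceptions bad M N y z ≤ exceptions b₁ M N y z + exceptions b₂ M N y z := by
    unfold exceptions
    refine le_trans (Set.ncard_le_ncard ?_ ((exceptions_finite b₁ M N y z).union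
      (exceptions_finite b₂ M N y z))) (Set.ncard_union_le _ _)
    rintro a ⟨h2, h3, x, h4, h5, h6⟩
    rcases h a x (hy.trans h4) h6 with h7 | h7
    · exact Or.inl ⟨h2, h3, x, h4, h5, h7⟩
    · exact Or.inr ⟨h2, h3, x, h4, h5, h7⟩
  have h2 : (exceptions bad M N y z : ℝ) ≤ exceptions b₁ M N y z + exceptions b₂ M N y z := by
    exact_mod_cast h1
  have h3 := hC₁ M N y z hy hyz
  have h4 := hC₂ M N y z hy hyz
  rw [add_mul]
  linarith

theorem few_of {G : ∀ p : ℕ, ZMod p → ℝ} (hG : ∀ p a, |G p a| ≤ 1) {m : ℝ}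
    (hm : ∀ δ : ℝ, 0 < δ → ∀ᶠ p in atTop, Nat.Prime p → m - δ ≤ nu G p) {ε : ℝ} (hε : 0 < ε)
    {bad : ℤ → ℕ → Prop} (hb : ∀ a x, 2 ≤ x → bad a x →
      ∑ p ∈ Pr x, G p (a : ZMod p) < (m - ε) * Nat.primeCounting x) : Few bad := by
  classical
  obtain ⟨C, _, hC⟩ := core hG hm hε
  refine ⟨C, fun M N y z hy hyz => ?_⟩
  refine le_trans ?_ (hC M N y z hy hyz)
  have h1 := exceptions_le bad M N y z
  refine Nat.cast_le.2 (h1.trans (Finset.card_le_card fun n hn => ?_))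
  rw [Finset.mem_filter] at hn ⊢
  obtain ⟨h2, x, h3, h4, h5⟩ := hn
  exact ⟨h2, x, h3, h4, hb _ x (hy.trans h3) h5⟩

/-- sums over `range p` of functions that are zero at zero -/
theorem range_eq {p : ℕ} (hp : p.Prime) {f : ZMod p → ℝ} (h0 : f 0 = 0) :
    ∑ a ∈ Finset.range p, f (a : ZMod p) = ∑ b ∈ Finset.Ico 1 p, f ((b : ℤ) : ZMod p) := by
  have h1 : Finset.range p = insert 0 (Finset.Ico 1 p) := by
    ext a
    rw [Finset.mem_range, Finset.mem_insert, Finset.mem_Ico]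
    have := hp.pos
    omega
  rw [h1, Finset.sum_insert (by rw [Finset.mem_Ico]; omega), Nat.cast_zero, h0, zero_add]
  exact Finset.sum_congr rfl fun b _ => by rw [Int.cast_natCast]

theorem ne_zero_of_mem {p b : ℕ} (hb : b ∈ Finset.Ico 1 p) : ((b : ℤ) : ZMod p) ≠ 0 := by
  rw [Finset.mem_Ico] at hb
  rw [Int.cast_natCast, Ne, ZMod.natCast_eq_zero_iff]
  exact fun h0 => absurd (Nat.le_of_dvd hb.1 h0) (not_le.2 hb.2)

/-- the angle as a function on residue classes -/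
noncomputable def angz (p : ℕ) (a : ZMod p) : ℝ := Real.arccos (klz p a / (2 * Real.sqrt (p : ℝ)))

theorem angle_eq (a : ℤ) (p : ℕ) : angle a p = angz p (a : ZMod p) := rfl

theorem transfer : ∃ C : ℝ, ∀ f : ℕ → ℝ → ℝ, (∀ p θ, |f p θ| ≤ 1) → ∀ ε : ℝ, 0 < ε → ε ≤ 1 →
    ∀ (M : ℤ) (N y z : ℕ), 2 ≤ y → y ≤ z →
      (exceptions (fun a x => ε * Nat.primeCounting x < |deviation f a x|) M N y z : ℝ) ≤
        C / ε ^ 3 * (N / Nat.primeCounting y + z * Real.log z ^ 2) := by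
  classical
  obtain ⟨C, _, hC⟩ := all_scales
  refine ⟨C, fun f hf ε hε hε1 M N y z hy hyz => ?_⟩
  set G : ∀ p : ℕ, ZMod p → ℝ := fun p a => if a = 0 then 0 else f p (angz p a) with hG
  have hG1 : ∀ p a, |G p a| ≤ 1 := by
    intro p a
    rw [hG]
    simp only
    split_ifs
    · rw [abs_zero]; exact zero_le_one
    · exact hf _ _
  refine le_trans ?_ (hC G hG1 ε hε hε1 M N y z hy hyz)
  have h1 := exceptions_le (fun a x => ε * Nat.primeCounting x < |deviation f a x|) M N y z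
  refine Nat.cast_le.2 (h1.trans (Finset.card_le_card fun n hn => ?_))
  rw [Finset.mem_filter] at hn ⊢
  obtain ⟨h2, x, h3, h4, h5⟩ := hn
  refine ⟨h2, x, h3, h4, ?_⟩
  have h6 : deviation f (M + (n : ℤ)) x = dev G x (M + (n : ℤ)) := by
    unfold deviation dev
    refine Finset.sum_congr rfl fun p hp => ?_
    have hpp : p.Prime := (Finset.mem_filter.1 hp).2
    congr 1
    · rw [hG]
      simp only
      rw [angle_eq]
      by_cases h7 : (p : ℤ) ∣ M + (n : ℤ)
      · rw [if_pos h7, if_pos (cast_eq_zero.2 h7)]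
      · rw [if_neg h7, if_neg fun h8 => h7 (cast_eq_zero.1 h8)]
    · unfold verticalMean nu
      rw [range_eq hpp (f := G p) (by rw [hG]; simp)]
      congr 1
      refine Finset.sum_congr rfl fun b hb => ?_
      rw [hG]
      simp only
      rw [if_neg (ne_zero_of_mem hb), angle_eq]
  rw [← h6]
  exact h5

open scoped Classical in
/-- the indicator function of a condition on the residue class, zero at zero -/
noncomputable def ind (Q : ∀ p : ℕ, ZMod p → Prop) (p : ℕ) (a : ZMod p) : ℝ :=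
  if a ≠ 0 ∧ Q p a then 1 else 0

theorem ind_pos {Q : ∀ p : ℕ, ZMod p → Prop} {p : ℕ} {a : ZMod p} (h : a ≠ 0 ∧ Q p a) :
    ind Q p a = 1 := if_pos h

theorem ind_neg {Q : ∀ p : ℕ, ZMod p → Prop} {p : ℕ} {a : ZMod p} (h : ¬ (a ≠ 0 ∧ Q p a)) :
    ind Q p a = 0 := if_neg h

theorem ind_zero {Q : ∀ p : ℕ, ZMod p → Prop} {p : ℕ} : ind Q p 0 = 0 :=
  ind_neg fun h => h.1 rfl

theorem ind_le (Q : ∀ p : ℕ, ZMod p → Prop) (p : ℕ) (a : ZMod p) : |ind Q p a| ≤ 1 := by
  unfold ind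
  split_ifs <;> simp

theorem sum_ind (Q : ∀ p : ℕ, ZMod p → Prop) {R : ℕ → Prop} {a : ℤ}
    (h : ∀ p : ℕ, R p ↔ Q p ((a : ℤ) : ZMod p)) (x : ℕ)
    [DecidablePred fun p : ℕ => ¬ (p : ℤ) ∣ a ∧ R p] :
    ∑ p ∈ Pr x, ind Q p (a : ZMod p) =
      (((primes x).filter fun p : ℕ => ¬ (p : ℤ) ∣ a ∧ R p).card : ℝ) := by
  rw [Finset.card_filter]
  push_cast
  refine Finset.sum_congr rfl fun p _ => ?_
  have h1 : ((a : ZMod p) ≠ 0 ∧ Q p (a : ZMod p)) ↔ (¬ (p : ℤ) ∣ a ∧ R p) := by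
    rw [h p, Ne, cast_eq_zero]
  by_cases h2 : ¬ (p : ℤ) ∣ a ∧ R p
  · rw [if_pos h2, ind_pos (h1.2 h2)]
  · rw [if_neg h2, ind_neg fun h3 => h2 (h1.1 h3)]

theorem katz (hK : VerticalSatoTate) {α β : ℝ} (h0 : 0 ≤ α) (hαβ : α ≤ β) (hβ : β ≤ Real.pi)
    {ε : ℝ} (hε : 0 < ε) :
    Few fun a x => ε * Nat.primeCounting x <
      |(count α β a x : ℝ) - satoTate α β * Nat.primeCounting x| := by
  classical
  set Q : ∀ p : ℕ, ZMod p → Prop := fun p a => α ≤ angz p a ∧ angz p a ≤ β with hQ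
  have hsum : ∀ (a : ℤ) (x : ℕ), ∑ p ∈ Pr x, ind Q p (a : ZMod p) = (count α β a x : ℝ) :=
    fun a x => sum_ind Q (fun p => Iff.rfl) x
  have hnu : ∀ p : ℕ, p.Prime → nu (ind Q) p =
      ({b : ℕ | 1 ≤ b ∧ b < p ∧ α ≤ angle b p ∧ angle b p ≤ β}.ncard : ℝ) / p := by
    intro p hp
    unfold nu
    rw [range_eq hp (f := ind Q p) ind_zero]
    congr 1
    have h1 : {b : ℕ | 1 ≤ b ∧ b < p ∧ α ≤ angle b p ∧ angle b p ≤ β} =
        (((Finset.Ico 1 p).filter fun b : ℕ => α ≤ angle b p ∧ angle b p ≤ β : Finset ℕ) :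
          Set ℕ) := by
      ext b
      rw [Finset.mem_coe, Finset.mem_filter, Finset.mem_Ico, Set.mem_ofPred_eq]
      tauto
    rw [h1, Set.ncard_coe_finset, Finset.card_filter]
    push_cast
    refine Finset.sum_congr rfl fun b hb => ?_
    have h2 := ne_zero_of_mem hb
    have h3 : (((b : ℤ) : ZMod p) ≠ 0 ∧ Q p ((b : ℤ) : ZMod p)) ↔
        (α ≤ angle b p ∧ angle b p ≤ β) := by
      rw [hQ]
      simp only
      rw [← angle_eq]
      exact ⟨fun h => h.2, fun h => ⟨h2, h⟩⟩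
    rw [Int.cast_natCast] at h3
    by_cases h4 : α ≤ angle b p ∧ angle b p ≤ β
    · rw [if_pos h4]
      exact ind_pos (h3.2 h4)
    · rw [if_neg h4]
      exact ind_neg fun h5 => h4 (h3.1 h5)
  have hlim := hK α β h0 hαβ hβ
  rw [Metric.tendsto_nhds] at hlim
  have hlo : ∀ δ : ℝ, 0 < δ → ∀ᶠ p in atTop, Nat.Prime p →
      satoTate α β - δ ≤ nu (ind Q) p := by
    intro δ hδ
    have h1 := hlim δ hδ
    rw [eventually_inf_principal] at h1
    filter_upwards [h1] with p hp hpp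
    have h2 := hp hpp
    rw [Real.dist_eq, ← hnu p hpp] at h2
    linarith [(abs_lt.1 h2).1]
  have hhi : ∀ δ : ℝ, 0 < δ → ∀ᶠ p in atTop, Nat.Prime p →
      -satoTate α β - δ ≤ nu (fun p a => -ind Q p a) p := by
    intro δ hδ
    have h1 := hlim δ hδ
    rw [eventually_inf_principal] at h1
    filter_upwards [h1] with p hp hpp
    have h2 := hp hpp
    rw [Real.dist_eq, ← hnu p hpp] at h2
    have h3 : nu (fun p a => -ind Q p a) p = -nu (ind Q) p := by
      unfold nu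
      rw [Finset.sum_neg_distrib, neg_div]
    rw [h3]
    linarith [(abs_lt.1 h2).2]
  have hG2 : ∀ p (a : ZMod p), |(fun (p : ℕ) (a : ZMod p) => -ind Q p a) p a| ≤ 1 := by
    intro p a
    show |-ind Q p a| ≤ 1
    rw [abs_neg]
    exact ind_le Q p a
  have f1 : Few fun a x => (count α β a x : ℝ) < (satoTate α β - ε) * Nat.primeCounting x :=
    few_of (ind_le Q) hlo hε fun a x _ hb => by
      rw [hsum]
      exact hb
  have f2 : Few fun a x => -(count α β a x : ℝ) < (-satoTate α β - ε) * Nat.primeCounting x :=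
    few_of hG2 hhi hε fun a x _ hb => by
      rw [Finset.sum_neg_distrib, hsum]
      exact hb
  refine few_or f1 f2 fun a x _ hb => ?_
  rcases lt_or_ge (count α β a x : ℝ) (satoTate α β * Nat.primeCounting x) with h1 | h1
  · left
    rw [abs_of_neg (by linarith)] at hb
    rw [sub_mul]
    linarith
  · right
    rw [abs_of_nonneg (by linarith)] at hb
    rw [sub_mul, neg_mul]
    linarith

end

/-- The horizontal Sato-Tate law of the Kloosterman angles for almost all integers.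

1. Transfer principle, for all functions `f_p` on the angles with `|f_p| ≤ 1`: for all but at most
`C ε⁻³ (N / π(y) + z (log z)²)` of the integers `a` of an interval of length `N` and for all `x` in `[y, z]`, the
average over the primes `p ≤ x` of `f_p(θ_p(a))` differs by at most `ε` from the average over `p ≤ x` of the mean
value of `f_p(θ_p(b))` over the residue classes `b` modulo `p`; the constant `C` is absolute.

2. With Katz's theorem on the angles `θ_p(b)` for fixed `p`: for all `[α, β]` and `ε > 0`, for all `a` with few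
exceptions and all `x` in `[y, z]`, the proportion of the primes `p ≤ x` with `θ_p(a)` in `[α, β]` differs by at
most `ε` from the Sato-Tate measure of `[α, β]`. -/
theorem result :
    (∃ C : ℝ, ∀ f : ℕ → ℝ → ℝ, (∀ p θ, |f p θ| ≤ 1) → ∀ ε : ℝ, 0 < ε → ε ≤ 1 →
      ∀ (M : ℤ) (N y z : ℕ), 2 ≤ y → y ≤ z →
        (exceptions (fun a x => ε * Nat.primeCounting x < |deviation f a x|) M N y z : ℝ) ≤
          C / ε ^ 3 * (N / Nat.primeCounting y + z * Real.log z ^ 2)) ∧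
    (VerticalSatoTate → ∀ α β : ℝ, 0 ≤ α → α ≤ β → β ≤ Real.pi → ∀ ε : ℝ, 0 < ε →
      Few fun a x => ε * Nat.primeCounting x <
        |(count α β a x : ℝ) - satoTate α β * Nat.primeCounting x|) :=
  ⟨transfer, fun hK _ _ h0 hαβ hβ _ hε => katz hK h0 hαβ hβ hε⟩

end Pool.Agent.Results.MP_6ea630_nt.AlmostAllIntegers
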