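import Pool.Agent.TH375.KL.Core

/-!
# Both signs of the Kloosterman sums `S(a, 1; p)` for almost all integers

It is not known whether `S(1, 1; p) > 0` for infinitely many primes `p`, nor whether `S(1, 1; p) < 0` for
infinitely many primes `p`.  Here it is proved, without any hypothesis, that for almost all integers `a` of an
arbitrary interval of length `N` and all `x` between `y` and `z` each sign occurs for at least a quarter of the
primes `p ≤ x`; the number of exceptional `a` is at most `C (N / π(y) + z (log z)²)`.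
-/

set_option autoImplicit false

namespace Pool.Agent.Results.MP_6ea630_nt.AlmostAllSigns

open Filter Topology

/-- The Kloosterman sum `S(a, 1; p)`. -/
noncomputable def kloosterman (a : ℤ) (p : ℕ) : ℝ :=
  ∑ x ∈ Finset.Ico 1 p, Real.cos (2 * Real.pi *
    ((((a : ZMod p) * (x : ZMod p) + (x : ZMod p)⁻¹).val : ℕ) : ℝ) / (p : ℝ))

/-- The primes up to `x`. -/
def primes (x : ℕ) : Finset ℕ := (Finset.range (x + 1)).filter Nat.Prime

open scoped Classical in
/-- The number of primes `p ≤ x`, not dividing `a`, with `σ S(a, 1; p) > η √p` (`σ = 1` or `-1`). -/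
noncomputable def signCount (σ η : ℝ) (a : ℤ) (x : ℕ) : ℕ :=
  ((primes x).filter fun p : ℕ => ¬ (p : ℤ) ∣ a ∧ η * Real.sqrt p < σ * kloosterman a p).card

/-- The number of integers `a` with `M < a ≤ M + N` such that `bad a x` for some `x` in `[y, z]`. -/
noncomputable def exceptions (bad : ℤ → ℕ → Prop) (M : ℤ) (N y z : ℕ) : ℕ :=
  {a : ℤ | M < a ∧ a ≤ M + N ∧ ∃ x, y ≤ x ∧ x ≤ z ∧ bad a x}.ncard

/-- For some `C`, all intervals `(M, M + N]` and all `2 ≤ y ≤ z`, at most `C (N / π(y) + z (log z)²)` of the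
integers `a` of the interval are bad for some `x` in `[y, z]`. -/
def Few (bad : ℤ → ℕ → Prop) : Prop :=
  ∃ C : ℝ, ∀ (M : ℤ) (N y z : ℕ), 2 ≤ y → y ≤ z →
    (exceptions bad M N y z : ℝ) ≤ C * (N / Nat.primeCounting y + z * Real.log z ^ 2)

section
open Pool.Agent.TH375.KL

/-- the Kloosterman sum as a function on residue classes -/
noncomputable def klz (p : ℕ) (a : ZMod p) : ℝ :=
  ∑ x ∈ Finset.Ico 1 p, Real.cos (2 * Real.pi *
    (((a * (x : ZMod p) + (x : ZMod p)⁻¹).val : ℕ) : ℝ) / (p : ℝ))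

theorem klz_eq {p : ℕ} [hp : Fact p.Prime] (a : ZMod p) : klz p a = rk p a 1 := by
  unfold klz rk KK Pool.Agent.Helper916.Kl
  rw [Complex.re_sum]
  have h1 : ∀ z : ZMod p, (ZMod.stdAddChar (a * z + 1 * z⁻¹) : ℂ).re =
      Real.cos (2 * Real.pi * (((a * z + z⁻¹).val : ℕ) : ℝ) / (p : ℝ)) := by
    intro z
    rw [one_mul, ZMod.stdAddChar_apply, ZMod.toCircle_apply]
    have h2 : (2 * (Real.pi : ℂ) * Complex.I * ((a * z + z⁻¹).val : ℂ) / (p : ℂ)) =
        ((2 * Real.pi * (((a * z + z⁻¹).val : ℕ) : ℝ) / (p : ℝ) : ℝ) : ℂ) * Complex.I := by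
      push_cast
      ring
    rw [h2, Complex.exp_ofReal_mul_I_re]
  rw [Finset.sum_congr rfl fun z _ => h1 z]
  refine Finset.sum_nbij' (fun x => (x : ZMod p)) ZMod.val ?_ ?_ ?_ ?_ ?_
  · intro x hx
    rw [Finset.mem_Ico] at hx
    rw [Finset.mem_erase]
    refine ⟨?_, Finset.mem_univ _⟩
    intro h0
    rw [ZMod.natCast_eq_zero_iff] at h0
    exact absurd (Nat.le_of_dvd hx.1 h0) (not_le.2 hx.2)
  · intro z hz
    rw [Finset.mem_erase] at hz
    rw [Finset.mem_Ico]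
    exact ⟨Nat.pos_of_ne_zero fun h0 => hz.1 ((ZMod.val_eq_zero z).1 h0), ZMod.val_lt z⟩
  · intro x hx
    rw [Finset.mem_Ico] at hx
    exact ZMod.val_cast_of_lt hx.2
  · intro z _
    exact ZMod.natCast_zmod_val z
  · intro x _
    rfl

theorem cast_eq_zero {a : ℤ} {p : ℕ} : ((a : ZMod p) = 0) ↔ (p : ℤ) ∣ a :=
  ZMod.intCast_zmod_eq_zero_iff_dvd a p

theorem exceptions_le (bad : ℤ → ℕ → Prop) (M : ℤ) (N y z : ℕ) :
    open scoped Classical in
    exceptions bad M N y z ≤ ((Finset.Icc 1 N).filter fun n : ℕ =>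
      ∃ x, y ≤ x ∧ x ≤ z ∧ bad (M + (n : ℤ)) x).card := by
  classical
  unfold exceptions
  have h1 : {a : ℤ | M < a ∧ a ≤ M + N ∧ ∃ x, y ≤ x ∧ x ≤ z ∧ bad a x} ⊆
      ((((Finset.Icc 1 N).filter fun n : ℕ =>
        ∃ x, y ≤ x ∧ x ≤ z ∧ bad (M + (n : ℤ)) x).image fun n : ℕ => M + (n : ℤ) : Finset ℤ) :
        Set ℤ) := by
    rintro a ⟨h2, h3, h4⟩
    rw [Finset.mem_coe, Finset.mem_image]
    have e : M + ((a - M).toNat : ℤ) = a := by omega
    refine ⟨(a - M).toNat, ?_, e⟩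
    rw [Finset.mem_filter, Finset.mem_Icc, e]
    exact ⟨⟨by omega, by omega⟩, h4⟩
  refine (Set.ncard_le_ncard h1 (Finset.finite_toSet _)).trans ?_
  rw [Set.ncard_coe_finset]
  exact Finset.card_image_le

theorem few_of {G : ∀ p : ℕ, ZMod p → ℝ} (hG : ∀ p a, |G p a| ≤ 1) {m : ℝ}
    (hm : ∀ δ : ℝ, 0 < δ → ∀ᶠ p in atTop, Nat.Prime p → m - δ ≤ nu G p) {ε : ℝ} (hε : 0 < ε)
    {bad : ℤ → ℕ → Prop} (hb : ∀ a x, 2 ≤ x → bad a x →
      ∑ p ∈ Pr x, G p (a : ZMod p) < (m - ε) * Nat.primeCounting x) : Few bad := by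
  classical
  obtain ⟨C, _, hC⟩ := core hG hm hε
  refine ⟨C, fun M N y z hy hyz => ?_⟩
  refine le_trans ?_ (hC M N y z hy hyz)
  have h1 := exceptions_le bad M N y z
  refine Nat.cast_le.2 (h1.trans (Finset.card_le_card fun n hn => ?_))
  rw [Finset.mem_filter] at hn ⊢
  obtain ⟨h2, x, h3, h4, h5⟩ := hn
  exact ⟨h2, x, h3, h4, hb _ x (hy.trans h3) h5⟩

/-- sums over `range p` of functions that are zero at zero -/
theorem range_eq {p : ℕ} (hp : p.Prime) {f : ZMod p → ℝ} (h0 : f 0 = 0) :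
    ∑ a ∈ Finset.range p, f (a : ZMod p) = ∑ b ∈ Finset.Ico 1 p, f ((b : ℤ) : ZMod p) := by
  have h1 : Finset.range p = insert 0 (Finset.Ico 1 p) := by
    ext a
    rw [Finset.mem_range, Finset.mem_insert, Finset.mem_Ico]
    have := hp.pos
    omega
  rw [h1, Finset.sum_insert (by rw [Finset.mem_Ico]; omega), Nat.cast_zero, h0, zero_add]
  exact Finset.sum_congr rfl fun b _ => by rw [Int.cast_natCast]

theorem ne_zero_of_mem {p b : ℕ} (hb : b ∈ Finset.Ico 1 p) : ((b : ℤ) : ZMod p) ≠ 0 := by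
  rw [Finset.mem_Ico] at hb
  rw [Int.cast_natCast, Ne, ZMod.natCast_eq_zero_iff]
  exact fun h0 => absurd (Nat.le_of_dvd hb.1 h0) (not_le.2 hb.2)

open scoped Classical in
/-- the indicator function of a condition on the residue class, zero at zero -/
noncomputable def ind (Q : ∀ p : ℕ, ZMod p → Prop) (p : ℕ) (a : ZMod p) : ℝ :=
  if a ≠ 0 ∧ Q p a then 1 else 0

theorem ind_pos {Q : ∀ p : ℕ, ZMod p → Prop} {p : ℕ} {a : ZMod p} (h : a ≠ 0 ∧ Q p a) :
    ind Q p a = 1 := if_pos h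

theorem ind_neg {Q : ∀ p : ℕ, ZMod p → Prop} {p : ℕ} {a : ZMod p} (h : ¬ (a ≠ 0 ∧ Q p a)) :
    ind Q p a = 0 := if_neg h

theorem ind_zero {Q : ∀ p : ℕ, ZMod p → Prop} {p : ℕ} : ind Q p 0 = 0 :=
  ind_neg fun h => h.1 rfl

theorem ind_le (Q : ∀ p : ℕ, ZMod p → Prop) (p : ℕ) (a : ZMod p) : |ind Q p a| ≤ 1 := by
  unfold ind
  split_ifs <;> simp

theorem sum_ind (Q : ∀ p : ℕ, ZMod p → Prop) {R : ℕ → Prop} {a : ℤ}
    (h : ∀ p : ℕ, R p ↔ Q p ((a : ℤ) : ZMod p)) (x : ℕ)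
    [DecidablePred fun p : ℕ => ¬ (p : ℤ) ∣ a ∧ R p] :
    ∑ p ∈ Pr x, ind Q p (a : ZMod p) =
      (((primes x).filter fun p : ℕ => ¬ (p : ℤ) ∣ a ∧ R p).card : ℝ) := by
  rw [Finset.card_filter]
  push_cast
  refine Finset.sum_congr rfl fun p _ => ?_
  have h1 : ((a : ZMod p) ≠ 0 ∧ Q p (a : ZMod p)) ↔ (¬ (p : ℤ) ∣ a ∧ R p) := by
    rw [h p, Ne, cast_eq_zero]
  by_cases h2 : ¬ (p : ℤ) ∣ a ∧ R p
  · rw [if_pos h2, ind_pos (h1.2 h2)]
  · rw [if_neg h2, ind_neg fun h3 => h2 (h1.1 h3)]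

theorem sign {σ : ℝ} (hσ : σ = 1 ∨ σ = -1) {η ε : ℝ} (hη : 0 ≤ η) (hε : 0 < ε) :
    Few fun a x => (signCount σ η a x : ℝ) < (1 / 4 - η - ε) * Nat.primeCounting x := by
  classical
  have hσ2 : σ ^ 2 = 1 := by rcases hσ with h | h <;> rw [h] <;> norm_num
  set Q : ∀ p : ℕ, ZMod p → Prop := fun p a => η * Real.sqrt p < σ * klz p a with hQ
  have hsum : ∀ (a : ℤ) (x : ℕ), ∑ p ∈ Pr x, ind Q p (a : ZMod p) = (signCount σ η a x : ℝ) :=
    fun a x => sum_ind Q (fun p => Iff.rfl) x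
  have hnu : ∀ p : ℕ, p.Prime → 1 / 4 - η - 1 / Real.sqrt p - 1 / p ≤ nu (ind Q) p := by
    intro p hp
    have : Fact p.Prime := ⟨hp⟩
    have hp0 : (0 : ℝ) < p := by exact_mod_cast hp.pos
    unfold nu
    rw [le_div_iff₀ hp0, sum_range_zmod (p := p) (f := ind Q p)]
    have h1 := sign_mean (p := p) hσ2 hη
    have h2 : ∑ a : ZMod p, (if η * Real.sqrt p < σ * rk p a 1 then (1 : ℝ) else 0) ≤
        ∑ a : ZMod p, (ind Q p a + if a = 0 then 1 else 0) := by
      refine Finset.sum_le_sum fun a _ => ?_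
      have hQa : Q p a ↔ η * Real.sqrt p < σ * rk p a 1 := by
        rw [hQ]
        simp only
        rw [klz_eq]
      by_cases ha : a = 0
      · rw [if_pos ha, ha, ind_zero]
        split_ifs <;> norm_num
      · rw [if_neg ha, add_zero]
        by_cases h3 : η * Real.sqrt p < σ * rk p a 1
        · rw [if_pos h3, ind_pos ⟨ha, hQa.2 h3⟩]
        · rw [if_neg h3, ind_neg fun h => h3 (hQa.1 h.2)]
    rw [Finset.sum_add_distrib, Finset.sum_ite_eq'] at h2
    simp only [Finset.mem_univ, if_true] at h2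
    have h3 : (1 / 4 - η - 1 / Real.sqrt p - 1 / p) * (p : ℝ) =
        (1 / 4 - η - 1 / Real.sqrt p) * p - 1 := by
      field_simp
    rw [h3]
    linarith
  refine few_of (ind_le Q) (m := 1 / 4 - η) ?_ hε fun a x _ hb => by
    rw [hsum]
    exact hb
  intro δ hδ
  have h1 : Tendsto (fun p : ℕ => 1 / Real.sqrt (p : ℝ) + 1 / (p : ℝ)) atTop (𝓝 (0 + 0)) := by
    refine Tendsto.add ?_ ?_
    · exact tendsto_const_nhds.div_atTop (Real.tendsto_sqrt_atTop.comp tendsto_natCast_atTop_atTop)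
    · exact tendsto_const_nhds.div_atTop tendsto_natCast_atTop_atTop
  rw [add_zero] at h1
  filter_upwards [(tendsto_order.1 h1).2 δ hδ] with p h2 hp
  have := hnu p hp
  linarith

end

/-- Both signs of the Kloosterman sums `S(a, 1; p)` for almost all integers `a`: for all `η ≥ 0`, `ε > 0` there
is `C` such that for every interval `(M, M + N]` and all `2 ≤ y ≤ z`, for all but at most
`C (N / π(y) + z (log z)²)` of the integers `a` of the interval and all `x` in `[y, z]`, there are at least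
`(1/4 - η - ε) π(x)` primes `p ≤ x` with `S(a, 1; p) > η √p`, and as many with `S(a, 1; p) < -η √p`. -/
theorem result : ∀ η ε : ℝ, 0 ≤ η → 0 < ε →
    Few (fun a x => (signCount 1 η a x : ℝ) < (1 / 4 - η - ε) * Nat.primeCounting x) ∧
    Few (fun a x => (signCount (-1) η a x : ℝ) < (1 / 4 - η - ε) * Nat.primeCounting x) :=
  fun _ _ hη hε => ⟨sign (Or.inl rfl) hη hε, sign (Or.inr rfl) hη hε⟩

end Pool.Agent.Results.MP_6ea630_nt.AlmostAllSigns
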