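import Pool.Agent.TH894.NF3

/-!
# The Kloosterman angles at `s` consecutive primes: all boxes, with square-root error against the finite-field model, and
all patterns of signs, for almost all integers which arise from an arbitrary integer by changing a few digits
-/

set_option autoImplicit false

namespace Pool.Agent.Results.MP_6ea630_nt.FewDigitIntegers

open Finset

/-- The Kloosterman sum `S(a, 1; p)`. -/
noncomputable def kloosterman (p a : ℕ) : ℝ :=
  ∑ x ∈ Ico 1 p, Real.cos (2 * Real.pi * ((((a : ZMod p) * (x : ZMod p) + (x : ZMod p)⁻¹).val : ℕ) : ℝ) / (p : ℝ))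

/-- The angle `θ / π` in `[0, 1]`, where `2 p ^ (1 / 2) cos θ = S(a, 1; p)`, and `1 / 2` if `p` divides `a`. -/
noncomputable def angle (p a : ℕ) : ℝ :=
  if p ∣ a then 1 / 2 else Real.arccos (kloosterman p a / (2 * Real.sqrt p)) / Real.pi

open Classical in
/-- The number of the indices `k < n` for which the angles at the `s` consecutive primes with the indices `k, ..., k + s - 1` (the
primes are numbered from `0`) are in the box with the sides `[u i, v i)`. -/
noncomputable def boxCount (s : ℕ) (u v : Fin s → ℝ) (n a : ℕ) : ℕ :=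
  ((range n).filter (fun k => ∀ i : Fin s, u i ≤ angle (Nat.nth Nat.Prime (k + i)) a ∧ angle (Nat.nth Nat.Prime (k + i)) a < v i)).card

open Classical in
/-- The proportion of the residues modulo `p` for which the angle is in `[u, v)`. -/
noncomputable def proportion (p : ℕ) (u v : ℝ) : ℝ :=
  (((range p).filter (fun a => u ≤ angle p a ∧ angle p a < v)).card : ℝ) / (p : ℝ)

/-- The expected number: the sum over the indices `k < n` of the product of the proportions at the `s` primes. -/
noncomputable def boxModel (s : ℕ) (u v : Fin s → ℝ) (n : ℕ) : ℝ :=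
  ∑ k ∈ range n, ∏ i : Fin s, proportion (Nat.nth Nat.Prime (k + i)) (u i) (v i)

open Classical in
/-- The number of the indices `k < n` such that for all `i < s` the prime `p` with the index `k + i` does not divide `a` and
`σ i S(a, 1; p) > η p ^ (1 / 2)`. -/
noncomputable def signCount (s : ℕ) (σ : Fin s → ℝ) (η : ℝ) (n a : ℕ) : ℕ :=
  ((range n).filter (fun k => ∀ i : Fin s, ¬ Nat.nth Nat.Prime (k + i) ∣ a ∧
    η * Real.sqrt (Nat.nth Nat.Prime (k + i)) < σ i * kloosterman (Nat.nth Nat.Prime (k + i)) a)).card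

/-- For all boxes the number of the indices `k < n` differs from the expected number by at most `n ^ (1 / 2 + δ)`. -/
def GoodBoxes (s : ℕ) (δ : ℝ) (n a : ℕ) : Prop :=
  ∀ u v : Fin s → ℝ, |(boxCount s u v n a : ℝ) - boxModel s u v n| ≤ (n : ℝ) ^ (1 / 2 + δ)

/-- Every pattern of signs occurs at `s` consecutive primes for at least `((1 / 4 - η) ^ s - ε) n` of the indices `k < n`. -/
def GoodSigns (s : ℕ) (η ε : ℝ) (n a : ℕ) : Prop :=
  ∀ σ : Fin s → ℝ, (∀ i, σ i = 1 ∨ σ i = -1) → ((1 / 4 - η) ^ s - ε) * n ≤ signCount s σ η n a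

/-- The digit number `i` (counted from the right, beginning with `0`) of `n` in base `b`. -/
def digit (b i n : ℕ) : ℕ := n / b ^ i % b

/-- The number which arises from the number `N` with at most `K` digits in base `b`, if for every `i ∈ S`
the digit number `i` is replaced by `f i`. -/
def change (b K N : ℕ) (f : ℕ → ℕ) (S : Finset ℕ) : ℕ :=
  ∑ i ∈ range K, (if i ∈ S then f i else digit b i N) * b ^ i

open Classical in
/-- The number of the choices of `r` of the `K` positions for which the number obtained by changing the digits of `N` at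
the chosen positions (according to `f`) does not have the property `E`. -/
noncomputable def exceptions (b K r N : ℕ) (f : ℕ → ℕ) (E : ℕ → Prop) : ℕ :=
  ((powersetCard r (range K)).filter (fun S => ¬ E (change b K N f S))).card

lemma angle_mod (p a : ℕ) : angle p (a % p) = angle p a := by
  unfold angle kloosterman
  rw [ZMod.natCast_mod]
  have h : p ∣ a % p ↔ p ∣ a := Nat.dvd_mod_iff (dvd_refl p)
  by_cases h1 : p ∣ a
  · rw [if_pos h1, if_pos (h.2 h1)]
  · rw [if_neg h1, if_neg (fun h2 => h1 (h.1 h2))]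

/-- the angles as functions with few values -/
noncomputable def ang : Pool.Agent.TH894.NF.Ang 1 where
  a := fun p m => angle p (m 0)
  per := by
    intro p m
    exact (angle_mod p (m 0)).symm
  le := by
    intro p m
    show angle p (m 0) ≤ 1
    unfold angle
    split_ifs
    · norm_num
    · rw [div_le_one Real.pi_pos]
      exact Real.arccos_le_pi _
  W := fun x => ((range (x + 1)) ×ˢ (range (x + 1))).image (fun pa : ℕ × ℕ => angle pa.1 pa.2)
  mem := by
    intro x p m hp hpx
    show angle p (m 0) ∈ _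
    rw [mem_image]
    refine ⟨(p, m 0 % p), ?_, angle_mod p (m 0)⟩
    rw [mem_product, mem_range, mem_range]
    have h1 := Nat.mod_lt (m 0) hp.pos
    exact ⟨by show p < x + 1; omega, by show m 0 % p < x + 1; omega⟩
  e := 3
  card := by
    intro x hx
    have hxr : (3 : ℝ) ≤ x := by exact_mod_cast hx
    have h1 : (((((range (x + 1)) ×ˢ (range (x + 1))).image (fun pa : ℕ × ℕ => angle pa.1 pa.2)).card : ℕ) : ℝ) ≤ (x + 1) * (x + 1) := by
      have h2 : (((range (x + 1)) ×ˢ (range (x + 1))).image (fun pa : ℕ × ℕ => angle pa.1 pa.2)).card ≤ (x + 1) * (x + 1) := by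
        refine card_image_le.trans ?_
        rw [card_product, card_range]
      exact_mod_cast h2
    nlinarith [sq_nonneg ((x : ℝ) - 3)]

/-- Let a base `b ≥ 2`, an integer `s ≥ 1`, `δ > 0`, `0 ≤ η ≤ 1 / 4`, `ε > 0` and an integer `A ≥ 0` be given. There are `c > 0` and
`y₀` such that for all integers `r`, `K`, `y` with `2 r ≤ K` and `y ≥ y₀` the following holds.

Let `0 ≤ N < b ^ K` be an arbitrary integer and prescribe for every position `j` a digit `f j` different from the digit of
`N` in base `b`. If one chooses `r` of the `K` positions and replaces the digits of `N` at these positions, then for all but at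
most a proportion `1 / y ^ A` of the choices the number `a` obtained has the following properties for all integers `n` with
`y ≤ n ≤ exp (c r)`:

(1) for all boxes with the sides `[u i, v i)` the number of the `k < n` for which the `s` angles of `S(a, 1; p)` at the primes
`p = p_k, ..., p_(k + s - 1)` are in the box differs from the sum over `k < n` of the product of the proportions of the residues
modulo these primes by at most `n ^ (1 / 2 + δ)`;

(2) every pattern of `s` signs occurs at the `s` consecutive primes, for sums of absolute value greater than `η p ^ (1 / 2)`,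
for at least `((1 / 4 - η) ^ s - ε) n` of the `k < n`. -/
theorem result (b s : ℕ) (hb : 2 ≤ b) (hs : 1 ≤ s) (δ η ε : ℝ) (hδ : 0 < δ) (hη : 0 ≤ η) (hη1 : η ≤ 1 / 4) (hε : 0 < ε) (A : ℕ) :
    ∃ c : ℝ, 0 < c ∧ ∃ y₀ : ℕ, ∀ r K y : ℕ, 2 * r ≤ K → y₀ ≤ y →
    ∀ N : ℕ, N < b ^ K → ∀ f : ℕ → ℕ, (∀ j, f j < b ∧ f j ≠ digit b j N) →
      (exceptions b K r N f (fun a => ∀ n : ℕ, y ≤ n → (n : ℝ) ≤ Real.exp (c * r) → GoodBoxes s δ n a ∧ GoodSigns s η ε n a) : ℝ) ≤
        1 / (y : ℝ) ^ A * (K.choose r : ℝ) := by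
  classical
  obtain ⟨c₁, hc₁, y₁, h₁⟩ := Pool.Agent.TH894.NF.boxes1 ang b s hb hs δ hδ (A + 1)
  obtain ⟨c₂, hc₂, y₂, h₂⟩ := Pool.Agent.TH894.NF.signs b s hb hs η ε hη hη1 hε (A + 1)
  refine ⟨min c₁ c₂, lt_min hc₁ hc₂, y₁ + y₂ + 2, fun r K y hrK hy N hN f hf => ?_⟩
  have hyr : (2 : ℝ) ≤ y := by exact_mod_cast (by omega : 2 ≤ y)
  have hy0 : (0 : ℝ) < y := by linarith
  have hr0 : (0 : ℝ) ≤ r := Nat.cast_nonneg _
  obtain ⟨E₁, hE₁⟩ : ∃ E₁ : Finset (Finset ℕ), E₁ = (powersetCard r (range K)).filter (fun S =>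
    ¬ ∀ n : ℕ, y ≤ n → (n : ℝ) ≤ Real.exp (c₁ * r) → GoodBoxes s δ n (change b K N f S)) := ⟨_, rfl⟩
  obtain ⟨E₂, hE₂⟩ : ∃ E₂ : Finset (Finset ℕ), E₂ = (powersetCard r (range K)).filter (fun S =>
    ¬ ∀ n : ℕ, y ≤ n → (n : ℝ) ≤ Real.exp (c₂ * r) → GoodSigns s η ε n (change b K N f S)) := ⟨_, rfl⟩
  have hsub : (powersetCard r (range K)).filter (fun S => ¬ ∀ n : ℕ, y ≤ n → (n : ℝ) ≤ Real.exp (min c₁ c₂ * r) →
      GoodBoxes s δ n (change b K N f S) ∧ GoodSigns s η ε n (change b K N f S)) ⊆ E₁ ∪ E₂ := by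
    intro S hS
    rw [mem_filter] at hS
    obtain ⟨hS1, hS2⟩ := hS
    push Not at hS2
    obtain ⟨n, hyn, hn, hbad⟩ := hS2
    have hl1 : min c₁ c₂ * r ≤ c₁ * r := mul_le_mul_of_nonneg_right (min_le_left _ _) hr0
    have hl2 : min c₁ c₂ * r ≤ c₂ * r := mul_le_mul_of_nonneg_right (min_le_right _ _) hr0
    rw [mem_union, hE₁, hE₂, mem_filter, mem_filter]
    by_cases hG : GoodBoxes s δ n (change b K N f S)
    · right
      refine ⟨hS1, fun hall => ?_⟩
      exact hbad hG (hall n hyn (hn.trans (Real.exp_le_exp.2 hl2)))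
    · left
      refine ⟨hS1, fun hall => ?_⟩
      exact hG (hall n hyn (hn.trans (Real.exp_le_exp.2 hl1)))
  have hp : (y : ℝ) ^ (-((A : ℝ) + 1)) = 1 / (y : ℝ) ^ (A + 1) := by
    rw [Real.rpow_neg hy0.le, one_div]
    congr 1
    have : ((A : ℝ) + 1) = ((A + 1 : ℕ) : ℝ) := by push_cast; ring
    rw [this, Real.rpow_natCast]
  have k1 : (E₁.card : ℝ) ≤ 1 / (y : ℝ) ^ (A + 1) * (K.choose r : ℝ) := by
    rw [← hp]
    refine h₁ r K y hrK (by omega) N hN f hf E₁ (by rw [hE₁]; exact filter_subset _ _) ?_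
    intro S hS
    rw [hE₁, mem_filter] at hS
    obtain ⟨_, hS2⟩ := hS
    push Not at hS2
    obtain ⟨n, hyn, hn, hbad⟩ := hS2
    unfold GoodBoxes at hbad
    push Not at hbad
    obtain ⟨u, v, hlt⟩ := hbad
    have hn0 : (0 : ℝ) < n := by exact_mod_cast (by omega : 0 < n)
    refine ⟨n, hyn, (Real.log_le_iff_le_exp hn0).2 hn, fun i => (u i, v i), ?_⟩
    have hprop : ∀ (p : ℕ) (u v : ℝ), Pool.Agent.TH894.NE.Pr 1 p (fun m => u ≤ angle p (m 0) ∧ angle p (m 0) < v) = proportion p u v := by
      intro p u v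
      unfold Pool.Agent.TH894.NE.Pr proportion
      rw [pow_one]
      congr 2
      apply card_bij (fun m _ => m 0)
      · intro m hm
        simp only [mem_filter, Pool.Agent.TH894.NE.mem_box] at hm
        simp only [mem_filter, mem_range]
        exact ⟨hm.1 0, hm.2⟩
      · intro m _ m' _ hmm
        funext i
        rw [Subsingleton.elim i 0]
        exact hmm
      · intro a ha
        simp only [mem_filter, mem_range] at ha
        refine ⟨fun _ => a, ?_, rfl⟩
        simp only [mem_filter, Pool.Agent.TH894.NE.mem_box]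
        exact ⟨fun _ => ha.1, ha.2⟩
    have hmodel : Pool.Agent.TH894.NF.ex ang s (fun i => (u i, v i)) n = boxModel s u v n := by
      unfold Pool.Agent.TH894.NF.ex boxModel
      refine sum_congr rfl fun k _ => ?_
      rw [Pool.Agent.TH894.NF.Pr_prod]
      exact prod_congr rfl fun i _ => hprop _ _ _
    have hcount : Pool.Agent.TH894.NF.cnt ang s (fun i => (u i, v i)) n (fun _ => change b K N f S) = boxCount s u v n (change b K N f S) := by
      unfold Pool.Agent.TH894.NF.cnt boxCount Pool.Agent.TH894.NF.Bx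
      congr!
    have hgoal : (n : ℝ) ^ (1 / 2 + δ) < |(Pool.Agent.TH894.NF.cnt ang s (fun i => (u i, v i)) n (fun _ => change b K N f S) : ℝ) -
        Pool.Agent.TH894.NF.ex ang s (fun i => (u i, v i)) n| := by
      rw [hmodel, hcount]
      exact hlt
    exact hgoal
  have k2 : (E₂.card : ℝ) ≤ 1 / (y : ℝ) ^ (A + 1) * (K.choose r : ℝ) := by
    rw [← hp]
    refine h₂ r K y hrK (by omega) N hN f hf E₂ (by rw [hE₂]; exact filter_subset _ _) ?_
    intro S hS
    rw [hE₂, mem_filter] at hS
    obtain ⟨_, hS2⟩ := hS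
    push Not at hS2
    obtain ⟨n, hyn, hn, hbad⟩ := hS2
    unfold GoodSigns at hbad
    push Not at hbad
    obtain ⟨σ, hσ, hlt⟩ := hbad
    have hn0 : (0 : ℝ) < n := by exact_mod_cast (by omega : 0 < n)
    refine ⟨n, hyn, (Real.log_le_iff_le_exp hn0).2 hn, σ, hσ, ?_⟩
    refine lt_of_eq_of_lt ?_ hlt
    unfold signCount
    apply congrArg
    apply congrArg
    ext k
    simp only [mem_filter]
    exact Iff.rfl
  unfold exceptions
  have k3 : (((powersetCard r (range K)).filter (fun S => ¬ ∀ n : ℕ, y ≤ n → (n : ℝ) ≤ Real.exp (min c₁ c₂ * r) →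
      GoodBoxes s δ n (change b K N f S) ∧ GoodSigns s η ε n (change b K N f S))).card : ℝ) ≤ E₁.card + E₂.card := by
    exact_mod_cast (card_le_card hsub).trans (card_union_le _ _)
  refine k3.trans ((add_le_add k1 k2).trans ?_)
  have hC : (0 : ℝ) ≤ (K.choose r : ℝ) := Nat.cast_nonneg _
  have k4 : 1 / (y : ℝ) ^ (A + 1) + 1 / (y : ℝ) ^ (A + 1) ≤ 1 / (y : ℝ) ^ A := by
    rw [← add_div, div_le_div_iff₀ (by positivity) (by positivity), pow_succ]
    have : (0 : ℝ) < (y : ℝ) ^ A := by positivity
    nlinarith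
  calc 1 / (y : ℝ) ^ (A + 1) * (K.choose r : ℝ) + 1 / (y : ℝ) ^ (A + 1) * (K.choose r : ℝ) =
        (1 / (y : ℝ) ^ (A + 1) + 1 / (y : ℝ) ^ (A + 1)) * (K.choose r : ℝ) := by ring
    _ ≤ _ := mul_le_mul_of_nonneg_right k4 hC

end Pool.Agent.Results.MP_6ea630_nt.FewDigitIntegers
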